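import Pool.Agent.T9h34.Q.Spec2

/-!
# Detectors with bounded depth, and the number of possible answers
-/

set_option autoImplicit false

namespace Pool.Agent.T9h36.QC

open Finset
open Pool.Agent.T9h35.RW
open Pool.Agent.HC34 (srcs IsLevel DepthLE)
open Pool.Agent.T9h34.Q (StDetector StReads)

section levels

variable {ι : Type*}

/-- Levels of the gates in a list. -/
def LevL (gs : List (Gate ι)) (lev : ℕ → ℕ) : Prop :=
  ∀ (i j : ℕ) (g : Gate ι), gs[j]? = some g → Src.gate i ∈ srcs g → i < j → lev i < lev j

theorem getElem?_fixOther (b : ℕ → ℝ) (gs : List (Gate ι)) : ∀ (k j : ℕ),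
    (fixOther b k gs)[j]? = (gs[j]?).map (fun g => if g.isOther then cGate (b (k + j)) else g) := by
  induction gs with
  | nil => intro k j; simp [fixOther]
  | cons g gs ih =>
    intro k j
    cases j with
    | zero => simp [fixOther]
    | succ j =>
      simp only [fixOther, List.getElem?_cons_succ]
      rw [ih (k + 1) j]
      have : k + 1 + j = k + (j + 1) := by omega
      rw [this]

theorem levL_fixOther (b : ℕ → ℝ) (gs : List (Gate ι)) (lev : ℕ → ℕ) (h : LevL gs lev) :
    LevL (fixOther b 0 gs) lev := by
  intro i j g hg hi hij
  rw [getElem?_fixOther] at hg
  cases hgj : gs[j]? with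
  | none =>
    rw [hgj] at hg
    simp at hg
  | some g' =>
    rw [hgj] at hg
    simp only [Option.map_some, Option.some.injEq] at hg
    by_cases ho : g'.isOther = true
    · rw [if_pos ho] at hg
      rw [← hg] at hi
      simp [cGate, srcs] at hi
    · rw [if_neg ho] at hg
      rw [← hg] at hi
      exact h i j g' hgj hi hij

/-- Add OR gates. -/
theorem exists_or_circuit' {f : ℕ} (hf : 2 ≤ f) (gs : List (Gate ι)) (hm : ∀ g ∈ gs, g.IsMono f)
    (ts : List (Test ι)) (hval : ∀ t ∈ ts, ∀ k, t.1 = .gate k → k < gs.length)
    (lev : ℕ → ℕ) (D : ℕ) (hD : ∀ j < gs.length, lev j < D) (hlev : LevL gs lev) :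
    ∃ E : Circuit ι, (∀ g ∈ E.gates, g.IsMono f) ∧ E.size = gs.length + ts.length ∧
      (∃ tl, E.gates = gs ++ tl) ∧
      (∀ x, E.eval x = true ↔ ∃ t ∈ ts, Test.eval x (runGates x gs) t = true) ∧
      ∃ lev' : ℕ → ℕ, (∀ j < E.size, lev' j < D + ts.length) ∧ LevL E.gates lev' := by
  induction ts with
  | nil =>
    refine ⟨⟨gs, (.const 0, 1)⟩, hm, by simp [Circuit.size], ⟨[], by simp⟩, ?_, lev, ?_, hlev⟩
    · intro x
      unfold Circuit.eval
      rw [test_eval]
      simp [Src.eval]
    · intro j hj
      simpa using hD j hj
  | cons t ts ih =>
    obtain ⟨E, h1, h2, ⟨tl, h3⟩, h5, lev', h8, h9⟩ := ih (fun b hb => hval b (by simp [hb]))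
    have h2' : E.gates.length = gs.length + ts.length := h2
    refine ⟨⟨E.gates ++ [orGate t E.out], (.gate E.size, 1)⟩, ?_, ?_, ?_, ?_,
      fun j => if j = E.size then D + ts.length else lev' j, ?_, ?_⟩
    · intro g hg
      simp only [List.mem_append, List.mem_singleton] at hg
      rcases hg with hg | rfl
      · exact h1 g hg
      · exact orGate_isMono hf _ _
    · simp only [Circuit.size, List.length_append, List.length_cons, List.length_nil]
      omega
    · refine ⟨tl ++ [orGate t E.out], ?_⟩
      simp only
      rw [h3, List.append_assoc]
    · intro x
      have hlt : E.size = (runGates x E.gates).length := by rw [length_runGates]; rfl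
      have h6 : (⟨E.gates ++ [orGate t E.out], (.gate E.size, 1)⟩ : Circuit ι).eval x = true ↔
          (Test.eval x (runGates x E.gates) t = true ∨ E.eval x = true) := by
        unfold Circuit.eval
        rw [test_eval]
        simp only [Src.eval]
        rw [runGates_append, getD_append_eq hlt, orGate_eval]
      have h7 : Test.eval x (runGates x E.gates) t = Test.eval x (runGates x gs) t := by
        have h8 : t.1.eval x (runGates x E.gates) = t.1.eval x (runGates x gs) := by
          rcases hcase : t.1 with i | c | k
          · rfl
          · rfl
          · simp only [Src.eval]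
            have hk := hval t (by simp) k hcase
            have h8 := getD_runGates_take x E.gates (j := gs.length) (k := k) hk
              (by rw [h3]; simp)
            rw [← h8, h3]
            simp
        unfold Test.eval
        rw [h8]
      rw [h6, h7, h5]
      simp
    · intro j hj
      simp only [Circuit.size, List.length_append, List.length_cons, List.length_nil] at hj
      by_cases hjE : j = E.size
      · simp only [hjE, if_true, List.length_cons]
        omega
      · simp only [hjE, if_false, List.length_cons]
        have hjlt : j < E.size := by
          have : E.size = E.gates.length := rfl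
          omega
        have := h8 j hjlt
        omega
    · intro i j g hg hi hij
      simp only at hg ⊢
      rcases Nat.lt_trichotomy j E.gates.length with hj | hj | hj
      · rw [List.getElem?_append_left hj] at hg
        have h10 := h9 i j g hg hi hij
        have e1 : j ≠ E.size := by
          have : E.size = E.gates.length := rfl
          omega
        have e2 : i ≠ E.size := by
          have : E.size = E.gates.length := rfl
          omega
        rw [if_neg e1, if_neg e2]
        exact h10
      · have e1 : j = E.size := hj
        have e2 : i ≠ E.size := by omega
        rw [if_pos e1, if_neg e2]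
        exact h8 i (by omega)
      · rw [List.getElem?_eq_none (by simp; omega)] at hg
        exact absurd hg (by simp)

end levels

theorem stDetector : StDetector := by
  intro ι f d D hf C hC hdepth y₀
  obtain ⟨lev, hlev1, hlev2⟩ := hdepth
  set gs := C.gates with hgs
  set b : ℕ → ℝ := fun k => (runGates y₀ gs).getD k 0 with hb
  set gs' := fixOther b 0 gs with hgs'
  set out' : Test ι := if C.out.1.Valid gs.length then C.out else (.const 0, C.out.2) with hout
  set as : List (Test ι) := detTests y₀ (runGates y₀ gs) 0 gs ++ [out'] with has
  have hmono : ∀ g ∈ gs', g.IsMono f := fixOther_isMono b 0 gs hC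
  have hlen' : gs'.length = gs.length := length_fixOther b 0 gs
  have hval : ∀ a ∈ as, ∀ k, a.1 = .gate k → k < gs'.length := by
    intro a ha k hk
    rw [has, List.mem_append] at ha
    rw [hlen']
    rcases ha with ha | ha
    · rw [mem_detTests] at ha
      obtain ⟨j, g, h1, _, h3, _⟩ := ha
      rw [hk] at h3
      simp only [Src.Valid, decide_eq_true_eq, Nat.zero_add] at h3
      have : j < gs.length := by
        by_contra hcon
        rw [List.getElem?_eq_none (by omega)] at h1
        exact absurd h1 (by simp)
      omega
    · rw [List.mem_singleton] at ha
      rw [ha, hout] at hk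
      by_cases h1 : C.out.1.Valid gs.length = true
      · rw [if_pos h1] at hk
        rw [hk] at h1
        simpa [Src.Valid] using h1
      · rw [if_neg h1] at hk
        exact absurd hk (by simp)
  have houte : ∀ x : ι → Bool, Test.eval x (runGates x gs) out' = C.eval x := by
    intro x
    rw [hout]
    unfold Circuit.eval
    split_ifs with h1
    · rfl
    · have h2 := Src.eval_invalid (a := C.out.1) (k := gs.length) (by simpa using h1) x
        (length_runGates x gs)
      unfold Test.eval
      rw [h2]
      rfl
  obtain ⟨E, h1, h2, _, h5, lev', h6', h7'⟩ := exists_or_circuit' hf gs' hmono as hval lev D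
    (fun j hj => hlev1 j (by rw [hlen'] at hj; exact hj)) (levL_fixOther b gs lev hlev2)
  have hasl : as.length ≤ C.numTests + 1 := by
    rw [has, List.length_append]
    have h6 := length_detTests y₀ (runGates y₀ gs) gs 0
    unfold Circuit.numTests
    rw [← hgs, List.length_singleton]
    omega
  refine ⟨E, h1, ?_, ⟨lev', fun j hj => ?_, h7'⟩, ?_, ?_⟩
  · rw [h2, hlen']
    unfold Circuit.size
    rw [← hgs]
    omega
  · have := h6' j hj
    omega
  · intro y hy x hxy hE
    have hready := reads_eq hy
    rw [← hgs] at hready
    have hfalse : ∀ a ∈ as, Test.eval x (runGates x gs') a = false := by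
      intro a ha
      by_contra hcon
      have : E.eval x = true := (h5 x).2 ⟨a, ha, by simpa using hcon⟩
      rw [hE] at this
      exact absurd this (by simp)
    have hselffull : runGates y gs = runGates y gs' := by
      have := runGates_fixOther2 y y₀ gs hready gs.length le_rfl
      rwa [List.take_length] at this
    have hargs : ∀ (j : ℕ) (g : Gate ι), gs[j]? = some g → ∀ a ∈ g.tests,
        Test.eval x (runGates x (gs'.take j)) a = Test.eval y₀ (runGates y₀ (gs.take j)) a := by
      intro j g hg a ha
      have hj : j < gs.length := by
        by_contra hcon
        rw [List.getElem?_eq_none (by omega)] at hg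
        exact absurd hg (by simp)
      cases hv : a.1.Valid j with
      | false =>
        exact test_invalid hv x y₀ (by rw [length_runGates, List.length_take]; omega)
          (by rw [length_runGates, List.length_take]; omega)
      | true =>
        rw [test_take hv x gs' (by omega), test_take hv y₀ gs hj.le]
        cases hy0 : Test.eval y₀ (runGates y₀ gs) a with
        | false =>
          apply hfalse
          rw [has, List.mem_append]
          left
          rw [mem_detTests]
          exact ⟨j, g, hg, ha, by rw [Nat.zero_add]; exact hv, hy0⟩
        | true =>
          have h10 := hready j g hg a ha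
          rw [test_take hv y gs hj.le, test_take hv y₀ gs hj.le, hy0, hselffull] at h10
          exact test_mono hxy (runGates_mono hxy gs' hmono) a h10
    have hpre : ∀ k ≤ gs.length, runGates x (gs.take k) = runGates x (gs'.take k) := by
      intro k hk
      have := runGates_fixOther x y₀ gs (by
        intro j g hg a ha
        have h6 := hargs j g hg a ha
        rw [hgs', ← fixOther_take] at h6
        exact h6) k hk
      rw [this, fixOther_take]
    have hfull : runGates x gs = runGates x gs' := by
      have := hpre gs.length le_rfl
      rw [List.take_length] at this
      rwa [List.take_of_length_le hlen'.le] at this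
    constructor
    · unfold Circuit.reads
      apply List.map_congr_left
      intro j hj
      rw [List.mem_range] at hj
      unfold Circuit.readsAt
      rw [← hgs]
      cases hg : gs[j]? with
      | none => rfl
      | some g =>
        simp only
        apply List.map_congr_left
        intro a ha
        rw [hpre j hj.le]
        exact hargs j g hg a ha
    · rw [← houte x, hfull]
      apply hfalse
      rw [has, List.mem_append]
      right
      simp
  · intro x hreads hE
    have hread := reads_eq hreads
    rw [← hgs] at hread
    have hfull : runGates x gs = runGates x gs' := by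
      have := runGates_fixOther2 x y₀ gs hread gs.length le_rfl
      rwa [List.take_length] at this
    obtain ⟨a, ha, hae⟩ := (h5 x).1 hE
    rw [← hfull] at hae
    rw [has, List.mem_append] at ha
    rcases ha with ha | ha
    · exfalso
      rw [mem_detTests] at ha
      obtain ⟨j, g, h6, h7, h8, h9⟩ := ha
      rw [Nat.zero_add] at h8
      have hj : j < gs.length := by
        by_contra hcon
        rw [List.getElem?_eq_none (by omega)] at h6
        exact absurd h6 (by simp)
      have h10 := hread j g h6 a h7
      rw [test_take h8 x gs hj.le, test_take h8 y₀ gs hj.le, h9, hae] at h10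
      exact absurd h10 (by simp)
    · rw [List.mem_singleton] at ha
      rw [ha, houte] at hae
      exact hae

theorem stReads : StReads := by
  intro ι _ _ C
  classical
  -- the lengths
  have hlen : ∀ x : ι → Bool, (C.reads x).map List.length =
      C.gates.map (fun g => g.tests.length) := by
    intro x
    unfold Circuit.reads
    rw [List.map_map]
    apply List.ext_getElem
    · simp
    · intro i h1 h2
      simp only [List.getElem_map, List.getElem_range, Function.comp_apply]
      unfold Circuit.readsAt
      rw [List.length_map] at h2
      rw [List.getElem?_eq_getElem h2]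
      simp
  have hflat : ∀ x : ι → Bool, (C.reads x).flatten.length = C.numTests := by
    intro x
    rw [List.length_flatten, hlen]
    rfl
  -- the map to vectors
  let F : Set.range (fun x : ι → Bool => C.reads x) → List.Vector Bool C.numTests :=
    fun r => ⟨r.1.flatten, by
      obtain ⟨x, hx⟩ := r.2
      rw [← hx]
      exact hflat x⟩
  have hF : Function.Injective F := by
    rintro ⟨r, x, rfl⟩ ⟨r', x', rfl⟩ h
    have h1 : (C.reads x).flatten = (C.reads x').flatten := congrArg Subtype.val h
    apply Subtype.ext
    simp only
    rw [List.eq_iff_flatten_eq]
    exact ⟨h1, by rw [hlen, hlen]⟩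
  have h1 := Nat.card_le_card_of_injective F hF
  rw [Nat.card_eq_fintype_card (α := List.Vector Bool C.numTests), card_vector,
    Fintype.card_bool] at h1
  exact h1

end Pool.Agent.T9h36.QC
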